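import Pool.Agent.BE01.Stmts

/-!
# Squad BE01, module DER: derivatives and the chain rule
-/

namespace Pool.Agent.BE01.H65

open Set Filter Topology
open Pool.Agent.BE01

noncomputable section

variable {M : Type} [NormedAddCommGroup M] [NormedSpace ℝ M]

/-- The properties proved by induction. -/
structure Pr (α c : ℕ) (P : ℝ → ℝ → M) : Prop where
  d1 : ∀ ψ δ, DifferentiableAt ℝ (fun s => P s δ) ψ
  d2 : ∀ ψ δ, DifferentiableAt ℝ (fun s => P ψ s) δ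
  m1 : dps P ∈ PP M α c
  m2 : ddl P ∈ PP M α c
  ch : ∀ (ψ δ : ℝ → ℝ) (t ψ' s : ℝ), HasDerivAt ψ ψ' t → HasDerivAt δ (δ t * s) t →
    HasDerivAt (fun r => P (ψ r) (δ r)) (ψ' • dps P (ψ t) (δ t) + s • ddl P (ψ t) (δ t)) t

lemma mem_cos {α c k j : ℕ} (h : j ≤ c + α * k) (m : M) :
    (fun ψ δ : ℝ => (δ ^ k * Real.cos (j * ψ)) • m) ∈ PP M α c :=
  Submodule.subset_span ⟨k, j, h, m, Or.inl rfl⟩

lemma mem_sin {α c k j : ℕ} (h : j ≤ c + α * k) (m : M) :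
    (fun ψ δ : ℝ => (δ ^ k * Real.sin (j * ψ)) • m) ∈ PP M α c :=
  Submodule.subset_span ⟨k, j, h, m, Or.inr rfl⟩

lemma h_cos (j : ℕ) (ψ : ℝ) :
    HasDerivAt (fun s : ℝ => Real.cos (j * s)) (-Real.sin (j * ψ) * j) ψ := by
  have h1 : HasDerivAt (fun s : ℝ => (j : ℝ) * s) (j : ℝ) ψ := by
    simpa using (hasDerivAt_id ψ).const_mul (j : ℝ)
  exact h1.cos

lemma h_sin (j : ℕ) (ψ : ℝ) :
    HasDerivAt (fun s : ℝ => Real.sin (j * s)) (Real.cos (j * ψ) * j) ψ := by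
  have h1 : HasDerivAt (fun s : ℝ => (j : ℝ) * s) (j : ℝ) ψ := by
    simpa using (hasDerivAt_id ψ).const_mul (j : ℝ)
  exact h1.sin

lemma pow_fix (k : ℕ) (δ : ℝ) : δ * ((k : ℝ) * δ ^ (k - 1)) = k * δ ^ k := by
  rcases k with _ | k
  · simp
  · rw [Nat.add_sub_cancel]; ring

/-- A generator. -/
lemma pr_gen {α c k : ℕ} (f g : ℝ → ℝ) (hf : ∀ ψ, HasDerivAt f (g ψ) ψ) (m : M)
    (hm : (fun ψ δ : ℝ => (δ ^ k * f ψ) • m) ∈ PP M α c)
    (hm' : (fun ψ δ : ℝ => (δ ^ k * g ψ) • m) ∈ PP M α c) :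
    Pr α c (fun ψ δ : ℝ => (δ ^ k * f ψ) • m) := by
  have e1 : ∀ ψ δ : ℝ, HasDerivAt (fun s => (δ ^ k * f s) • m) ((δ ^ k * g ψ) • m) ψ :=
    fun ψ δ => ((hf ψ).const_mul (δ ^ k)).smul_const m
  have e2 : ∀ ψ δ : ℝ, HasDerivAt (fun s : ℝ => (s ^ k * f ψ) • m)
      (((k : ℝ) * δ ^ (k - 1) * f ψ) • m) δ :=
    fun ψ δ => ((hasDerivAt_pow k δ).mul_const (f ψ)).smul_const m
  have e3 : dps (fun ψ δ : ℝ => (δ ^ k * f ψ) • m) = fun ψ δ : ℝ => (δ ^ k * g ψ) • m := by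
    funext ψ δ
    exact (e1 ψ δ).deriv
  have e4 : ddl (fun ψ δ : ℝ => (δ ^ k * f ψ) • m) =
      (k : ℝ) • fun ψ δ : ℝ => (δ ^ k * f ψ) • m := by
    funext ψ δ
    show δ • deriv (fun s : ℝ => (s ^ k * f ψ) • m) δ = (k : ℝ) • ((δ ^ k * f ψ) • m)
    rw [(e2 ψ δ).deriv, smul_smul, smul_smul, ← mul_assoc, pow_fix, mul_assoc]
  refine ⟨fun ψ δ => (e1 ψ δ).differentiableAt, fun ψ δ => (e2 ψ δ).differentiableAt, ?_, ?_, ?_⟩
  · rw [e3]; exact hm'
  · rw [e4]; exact Submodule.smul_mem _ _ hm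
  · intro ψ δ t ψ' s hψ hδ
    rw [e3, e4]
    have h1 := ((hδ.pow k).mul ((hf (ψ t)).comp t hψ)).smul_const m
    have h2 : ((k : ℝ) * δ t ^ (k - 1) * (δ t * s) * (f ∘ ψ) t + (δ ^ k) t * (g (ψ t) * ψ')) • m =
        ψ' • ((δ t ^ k * g (ψ t)) • m) + s • ((k : ℝ) • ((δ t ^ k * f (ψ t)) • m)) := by
      rw [smul_smul, smul_smul, smul_smul, ← add_smul]
      congr 1
      have := pow_fix k (δ t)
      simp only [Function.comp_apply, Pi.pow_apply]
      linear_combination (s * f (ψ t)) * this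
    have h3 := h1.congr_deriv h2
    exact h3

lemma pr_zero (α c : ℕ) : Pr α c (0 : ℝ → ℝ → M) := by
  have e1 : dps (0 : ℝ → ℝ → M) = 0 := by
    funext ψ δ
    show deriv (fun _ : ℝ => (0 : M)) ψ = 0
    rw [deriv_const]
  have e2 : ddl (0 : ℝ → ℝ → M) = 0 := by
    funext ψ δ
    show δ • deriv (fun _ : ℝ => (0 : M)) δ = 0
    rw [deriv_const, smul_zero]
  refine ⟨fun ψ δ => differentiableAt_const (0 : M), fun ψ δ => differentiableAt_const (0 : M),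
    ?_, ?_, ?_⟩
  · rw [e1]; exact Submodule.zero_mem _
  · rw [e2]; exact Submodule.zero_mem _
  · intro ψ δ t ψ' s _ _
    rw [e1, e2]
    have : ψ' • (0 : ℝ → ℝ → M) (ψ t) (δ t) + s • (0 : ℝ → ℝ → M) (ψ t) (δ t) = 0 := by simp
    rw [this]
    exact hasDerivAt_const t (0 : M)

lemma pr_add {α c : ℕ} {P Q : ℝ → ℝ → M} (hP : Pr α c P) (hQ : Pr α c Q) : Pr α c (P + Q) := by
  have e1 : dps (P + Q) = dps P + dps Q := by
    funext ψ δ
    exact deriv_add (hP.d1 ψ δ) (hQ.d1 ψ δ)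
  have e2 : ddl (P + Q) = ddl P + ddl Q := by
    funext ψ δ
    show δ • deriv (fun s => P ψ s + Q ψ s) δ = δ • deriv (fun s => P ψ s) δ +
      δ • deriv (fun s => Q ψ s) δ
    rw [← smul_add]
    congr 1
    exact deriv_add (hP.d2 ψ δ) (hQ.d2 ψ δ)
  refine ⟨fun ψ δ => (hP.d1 ψ δ).add (hQ.d1 ψ δ), fun ψ δ => (hP.d2 ψ δ).add (hQ.d2 ψ δ),
    ?_, ?_, ?_⟩
  · rw [e1]; exact Submodule.add_mem _ hP.m1 hQ.m1
  · rw [e2]; exact Submodule.add_mem _ hP.m2 hQ.m2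
  · intro ψ δ t ψ' s hψ hδ
    rw [e1, e2]
    refine ((hP.ch ψ δ t ψ' s hψ hδ).add (hQ.ch ψ δ t ψ' s hψ hδ)).congr_deriv ?_
    simp only [Pi.add_apply, smul_add]
    abel

lemma pr_smul {α c : ℕ} {P : ℝ → ℝ → M} (a : ℝ) (hP : Pr α c P) : Pr α c (a • P) := by
  have e1 : dps (a • P) = a • dps P := by
    funext ψ δ
    exact deriv_const_smul a (hP.d1 ψ δ)
  have e2 : ddl (a • P) = a • ddl P := by
    funext ψ δ
    show δ • deriv (fun s => a • P ψ s) δ = a • (δ • deriv (fun s => P ψ s) δ)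
    rw [smul_comm a δ]
    congr 1
    exact deriv_const_smul a (hP.d2 ψ δ)
  refine ⟨fun ψ δ => (hP.d1 ψ δ).const_smul a, fun ψ δ => (hP.d2 ψ δ).const_smul a, ?_, ?_, ?_⟩
  · rw [e1]; exact Submodule.smul_mem _ _ hP.m1
  · rw [e2]; exact Submodule.smul_mem _ _ hP.m2
  · intro ψ δ t ψ' s hψ hδ
    rw [e1, e2]
    refine ((hP.ch ψ δ t ψ' s hψ hδ).const_smul a).congr_deriv ?_
    simp only [Pi.smul_apply]
    rw [smul_add, smul_comm a ψ', smul_comm a s]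

lemma pr_all {α c : ℕ} {P : ℝ → ℝ → M} (hP : P ∈ PP M α c) : Pr α c P := by
  induction hP using Submodule.span_induction with
  | mem x hx =>
    obtain ⟨k, j, hj, m, h | h⟩ := hx
    · subst h
      refine pr_gen (k := k) (fun ψ => Real.cos (j * ψ)) (fun ψ => -Real.sin (j * ψ) * j)
        (fun ψ => h_cos j ψ) m (mem_cos hj m) ?_
      have : (fun ψ δ : ℝ => (δ ^ k * (-Real.sin (j * ψ) * j)) • m) =
          (-(j : ℝ)) • fun ψ δ : ℝ => (δ ^ k * Real.sin (j * ψ)) • m := by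
        funext ψ δ
        show _ = (-(j : ℝ)) • ((δ ^ k * Real.sin (j * ψ)) • m)
        rw [smul_smul]
        congr 1
        ring
      rw [this]
      exact Submodule.smul_mem _ _ (mem_sin hj m)
    · subst h
      refine pr_gen (k := k) (fun ψ => Real.sin (j * ψ)) (fun ψ => Real.cos (j * ψ) * j)
        (fun ψ => h_sin j ψ) m (mem_sin hj m) ?_
      have : (fun ψ δ : ℝ => (δ ^ k * (Real.cos (j * ψ) * j)) • m) =
          (j : ℝ) • fun ψ δ : ℝ => (δ ^ k * Real.cos (j * ψ)) • m := by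
        funext ψ δ
        show _ = (j : ℝ) • ((δ ^ k * Real.cos (j * ψ)) • m)
        rw [smul_smul]
        congr 1
        ring
      rw [this]
      exact Submodule.smul_mem _ _ (mem_cos hj m)
  | zero => exact pr_zero α c
  | add x y _ _ hx hy => exact pr_add hx hy
  | smul a x _ hx => exact pr_smul a hx

theorem der : DerStmt := by
  intro M _ _ α c P hP
  have h := pr_all hP
  refine ⟨h.m1, h.m2, fun hO => ⟨?_, ?_⟩, fun ψ δ => (h.d1 ψ δ).hasDerivAt, h.d2, h.ch⟩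
  · intro ψ δ
    have e1 : (fun s => P (s + Real.pi) δ) = fun s => -P s δ := by
      funext s
      exact hO s δ
    show deriv (fun s => P s δ) (ψ + Real.pi) = -deriv (fun s => P s δ) ψ
    rw [← deriv_comp_add_const (f := fun s => P s δ) Real.pi ψ, e1]
    exact deriv.fun_neg
  · intro ψ δ
    have e1 : (fun s => P (ψ + Real.pi) s) = fun s => -P ψ s := by
      funext s
      exact hO ψ s
    show δ • deriv (fun s => P (ψ + Real.pi) s) δ = -(δ • deriv (fun s => P ψ s) δ)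
    rw [e1, ← smul_neg]
    congr 1
    exact deriv.fun_neg

end

end Pool.Agent.BE01.H65
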